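import Pool.Agent.helper96.Slope.Defs

/-!
# Slopes: moments of the singular series (module MO)
-/

namespace Pool.Agent.helper96.Slope

open Finset Pool.Agent.Lib.BrunHooley
open Pool.Agent.helper35.LinPrimes (h)

namespace MO64

open Pool.Agent.helper35.LinPrimes

lemma one_add_two_mul_pow (e : ℕ) {x : ℝ} (h0 : 0 ≤ x) (h1 : x ≤ 1 / 2) :
    (1 + 2 * x) ^ e ≤ 1 + (2 ^ (e + 1) - 2) * x := by
  induction e with
  | zero => norm_num
  | succ e ih =>
    have h2 : (2 : ℝ) ≤ 2 ^ (e + 1) := by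
      calc (2 : ℝ) = 2 ^ 1 := by norm_num
        _ ≤ 2 ^ (e + 1) := pow_le_pow_right₀ (by norm_num) (by omega)
    calc (1 + 2 * x) ^ (e + 1) = (1 + 2 * x) ^ e * (1 + 2 * x) := pow_succ _ _
      _ ≤ (1 + (2 ^ (e + 1) - 2) * x) * (1 + 2 * x) :=
          mul_le_mul_of_nonneg_right ih (by linarith)
      _ ≤ 1 + (2 ^ (e + 1 + 1) - 2) * x := by
          have h3 : (2 : ℝ) ^ (e + 1 + 1) = 2 * 2 ^ (e + 1) := by ring
          rw [h3]
          have h4 : 0 ≤ (2 ^ (e + 1) - 2 : ℝ) * x * (1 / 2 - x) :=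
            mul_nonneg (mul_nonneg (by linarith) h0) (by linarith)
          nlinarith

lemma h_pow_le (e b : ℕ) :
    h b ^ e ≤ ∑ T ∈ b.primeFactors.powerset, ∏ l ∈ T, ((2 : ℝ) ^ (e + 1) / (l : ℝ)) := by
  rw [← Finset.prod_one_add, h, ← prod_pow]
  refine prod_le_prod (fun l hl => ?_) fun l hl => ?_
  · exact pow_nonneg (zero_le_one.trans (one_le_inv (Nat.prime_of_mem_primeFactors hl))) _
  · have hlp := Nat.prime_of_mem_primeFactors hl
    have h2 : (2 : ℝ) ≤ l := by exact_mod_cast hlp.two_le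
    have h0 := one_sub_inv_pos hlp
    have hx0 : (0 : ℝ) ≤ 1 / l := by positivity
    have hx1 : 1 / (l : ℝ) ≤ 1 / 2 := one_div_le_one_div_of_le (by norm_num) h2
    have h3 : (1 - 1 / (l : ℝ))⁻¹ ≤ 1 + 2 * (1 / (l : ℝ)) := by
      rw [inv_le_iff_one_le_mul₀ h0]
      nlinarith
    calc ((1 - 1 / (l : ℝ))⁻¹) ^ e ≤ (1 + 2 * (1 / (l : ℝ))) ^ e :=
          pow_le_pow_left₀ (zero_le_one.trans (one_le_inv hlp)) h3 e
      _ ≤ 1 + (2 ^ (e + 1) - 2) * (1 / (l : ℝ)) := one_add_two_mul_pow e hx0 hx1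
      _ ≤ 1 + 2 ^ (e + 1) / (l : ℝ) := by
          have : (2 : ℝ) ^ (e + 1) / (l : ℝ) = 2 ^ (e + 1) * (1 / (l : ℝ)) := by ring
          rw [this]; nlinarith

/-- expansion of the sum over a set. -/
lemma sum_h_pow_le (S : Finset ℕ) (M e : ℕ) (hS : ∀ x ∈ S, 1 ≤ x ∧ x ≤ M) :
    ∑ x ∈ S, h x ^ e ≤ ∑ T ∈ (Nat.primesLE M).powerset,
      (∏ l ∈ T, ((2 : ℝ) ^ (e + 1) / (l : ℝ))) * #{x ∈ S | (∏ l ∈ T, l) ∣ x} := by
  classical
  have h1 : ∑ x ∈ S, h x ^ e ≤ ∑ x ∈ S, ∑ T ∈ (Nat.primesLE M).powerset,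
        if (∏ l ∈ T, l) ∣ x then (∏ l ∈ T, ((2 : ℝ) ^ (e + 1) / (l : ℝ))) else 0 := by
    refine sum_le_sum fun b hb => ?_
    obtain ⟨hb1, hb2⟩ := hS b hb
    calc h b ^ e ≤ ∑ T ∈ b.primeFactors.powerset, ∏ l ∈ T, ((2 : ℝ) ^ (e + 1) / (l : ℝ)) :=
          h_pow_le e b
      _ ≤ ∑ T ∈ b.primeFactors.powerset,
            if (∏ l ∈ T, l) ∣ b then (∏ l ∈ T, ((2 : ℝ) ^ (e + 1) / (l : ℝ))) else 0 := by
          refine sum_le_sum fun T hT => ?_
          rw [mem_powerset] at hT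
          rw [if_pos]
          refine Finset.prod_primes_dvd b (fun l hl => ?_) (fun l hl => ?_)
          · exact (Nat.prime_of_mem_primeFactors (hT hl)).prime
          · exact Nat.dvd_of_mem_primeFactors (hT hl)
      _ ≤ _ := by
          refine sum_le_sum_of_subset_of_nonneg ?_ (fun T _ _ => ?_)
          · refine powerset_mono.mpr fun l hl => ?_
            rw [Nat.mem_primesLE]
            exact ⟨(Nat.le_of_dvd (by omega) (Nat.dvd_of_mem_primeFactors hl)).trans hb2,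
              Nat.prime_of_mem_primeFactors hl⟩
          · split_ifs
            · positivity
            · exact le_rfl
  refine h1.trans ?_
  rw [sum_comm]
  refine sum_le_sum fun T _ => ?_
  rw [← sum_filter, sum_const, nsmul_eq_mul, mul_comm]

lemma sum_prod_sq (M : ℕ) (K : ℝ) (hK : 0 ≤ K) :
    ∑ T ∈ (Nat.primesLE M).powerset, ∏ l ∈ T, (K / (l : ℝ) ^ 2) ≤ Real.exp K := by
  rw [← Finset.prod_one_add]
  calc ∏ l ∈ Nat.primesLE M, (1 + K / (l : ℝ) ^ 2)
      ≤ ∏ l ∈ Nat.primesLE M, Real.exp (K * (1 / (l : ℝ) ^ 2)) := by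
        refine prod_le_prod (fun l _ => by positivity) fun l _ => ?_
        have := Real.add_one_le_exp (K * (1 / (l : ℝ) ^ 2))
        have e : K / (l : ℝ) ^ 2 = K * (1 / (l : ℝ) ^ 2) := by ring
        rw [e]; linarith
    _ = Real.exp (K * ∑ l ∈ Nat.primesLE M, 1 / (l : ℝ) ^ 2) := by
        rw [mul_sum, Real.exp_sum]
    _ ≤ Real.exp K := by
        rw [Real.exp_le_exp]
        have := sum_inv_sq_primes M
        nlinarith

lemma prod_div_mul (T : Finset ℕ) (K : ℝ) :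
    (∏ l ∈ T, (K / (l : ℝ))) * (1 / ((∏ l ∈ T, l : ℕ) : ℝ)) = ∏ l ∈ T, (K / (l : ℝ) ^ 2) := by
  push_cast
  rw [one_div, ← prod_inv_distrib, ← prod_mul_distrib]
  refine prod_congr rfl fun l _ => ?_
  rw [pow_two, ← div_div, div_eq_mul_inv (K / (l : ℝ))]

/-- moments over an initial interval. -/
lemma sum_h_Icc (Y e : ℕ) : ∑ t ∈ Icc 1 Y, h t ^ e ≤ Real.exp (2 ^ (e + 1)) * Y := by
  refine (sum_h_pow_le (Icc 1 Y) Y e fun x hx => mem_Icc.mp hx).trans ?_
  have h1 : ∀ T ∈ (Nat.primesLE Y).powerset,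
      (∏ l ∈ T, ((2 : ℝ) ^ (e + 1) / (l : ℝ))) * #{x ∈ Icc 1 Y | (∏ l ∈ T, l) ∣ x}
      ≤ (∏ l ∈ T, ((2 : ℝ) ^ (e + 1) / (l : ℝ) ^ 2)) * Y := by
    intro T _
    have h2 : (#{x ∈ Icc 1 Y | (∏ l ∈ T, l) ∣ x} : ℝ) ≤ (1 / ((∏ l ∈ T, l : ℕ) : ℝ)) * Y := by
      have h3 : #{x ∈ Ioc 0 Y | (∏ l ∈ T, l) ∣ x} = Y / ∏ l ∈ T, l := Nat.Ioc_filter_dvd_card_eq_div Y _
      have h4 : Icc 1 Y = Ioc 0 Y := rfl
      rw [h4, h3]
      refine Nat.cast_div_le.trans (le_of_eq ?_)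
      ring
    calc _ ≤ (∏ l ∈ T, ((2 : ℝ) ^ (e + 1) / (l : ℝ))) * ((1 / ((∏ l ∈ T, l : ℕ) : ℝ)) * Y) :=
          mul_le_mul_of_nonneg_left h2 (prod_nonneg fun l _ => by positivity)
      _ = _ := by rw [← mul_assoc, prod_div_mul]
  refine (sum_le_sum h1).trans ?_
  rw [← sum_mul]
  exact mul_le_mul_of_nonneg_right (sum_prod_sq Y _ (by positivity)) (Nat.cast_nonneg _)

lemma mem_fam {A P x : ℕ} : x ∈ fam A P ↔ (A < x ∧ x ≤ 2 * A) ∧ x % P = 1 := by
  simp [fam]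

lemma card_fam_dvd (A P d : ℕ) (hP : 0 < P) (hd : 0 < d) :
    (#{x ∈ fam A P | d ∣ x} : ℝ) ≤ A / P * (1 / d) + 1 := by
  rcases (fam A P |>.filter (fun x => d ∣ x)).eq_empty_or_nonempty with h0 | ⟨x₀, hx₀⟩
  · rw [h0]; simp; positivity
  rw [mem_filter, mem_fam] at hx₀
  obtain ⟨⟨⟨h1, h2⟩, h3⟩, h4⟩ := hx₀
  have hcop : Nat.Coprime P d := by
    rw [Nat.coprime_iff_gcd_eq_one]
    have h5 : Nat.gcd P d ∣ x₀ := (Nat.gcd_dvd_right P d).trans h4
    have h6 : Nat.gcd P d ∣ P := Nat.gcd_dvd_left P d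
    have h7 := (Nat.dvd_mod_iff h6).mpr h5
    rw [h3] at h7
    exact Nat.dvd_one.mp h7
  have hsub : {x ∈ fam A P | d ∣ x} ⊆ {n ∈ Ioc A (A + A) | n ≡ x₀ [MOD P * d]} := by
    intro x hx
    rw [mem_filter, mem_fam] at hx
    obtain ⟨⟨⟨g1, g2⟩, g3⟩, g4⟩ := hx
    rw [mem_filter, mem_Ioc]
    refine ⟨⟨g1, by omega⟩, ?_⟩
    rw [← Nat.modEq_and_modEq_iff_modEq_mul hcop]
    refine ⟨?_, ?_⟩
    · unfold Nat.ModEq; rw [g3, h3]
    · exact ((Nat.modEq_zero_iff_dvd.mpr g4)).trans (Nat.modEq_zero_iff_dvd.mpr h4).symm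
  have h8 := (abs_le.mp (card_modEq_approx A A (P * d) x₀ (Nat.mul_pos hP hd))).2
  have h9 : (#{x ∈ fam A P | d ∣ x} : ℝ) ≤ #{n ∈ Ioc A (A + A) | n ≡ x₀ [MOD P * d]} := by
    exact_mod_cast card_le_card hsub
  have e : (A : ℝ) / ((P * d : ℕ) : ℝ) = A / P * (1 / d) := by
    push_cast; rw [div_mul_div_comm, mul_one]
  rw [e] at h8
  linarith

lemma card_fam_lower (A P : ℕ) (hP : 2 ≤ P) : (A : ℝ) / P - 1 ≤ #(fam A P) := by
  have h8 := (abs_le.mp (card_modEq_approx A A P 1 (by omega))).1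
  have e : fam A P = {n ∈ Ioc A (A + A) | n ≡ 1 [MOD P]} := by
    ext x
    rw [mem_fam, mem_filter, mem_Ioc]
    unfold Nat.ModEq
    rw [Nat.mod_eq_of_lt (by omega : 1 < P), two_mul]
  rw [e]
  linarith

lemma sum_h_fam (A P e : ℕ) (hA : 1 ≤ A) (hP : 0 < P) :
    ∑ x ∈ fam A P, h x ^ e ≤ Real.exp (2 ^ (e + 1)) * (A / P)
      + Real.exp (2 ^ (e + 1) * (Real.log (Real.log ((2 * A : ℕ) : ℝ)) + 4)) := by
  refine (sum_h_pow_le (fam A P) (2 * A) e fun x hx => ?_).trans ?_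
  · rw [mem_fam] at hx; omega
  have h1 : ∀ T ∈ (Nat.primesLE (2 * A)).powerset,
      (∏ l ∈ T, ((2 : ℝ) ^ (e + 1) / (l : ℝ))) * #{x ∈ fam A P | (∏ l ∈ T, l) ∣ x}
      ≤ (∏ l ∈ T, ((2 : ℝ) ^ (e + 1) / (l : ℝ) ^ 2)) * (A / P)
        + ∏ l ∈ T, ((2 : ℝ) ^ (e + 1) / (l : ℝ)) := by
    intro T hT
    rw [mem_powerset] at hT
    have hpos : 0 < ∏ l ∈ T, l := prod_pos fun l hl => (Nat.mem_primesLE.mp (hT hl)).2.pos
    have h2 := card_fam_dvd A P _ hP hpos
    calc _ ≤ (∏ l ∈ T, ((2 : ℝ) ^ (e + 1) / (l : ℝ)))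
            * (A / P * (1 / ((∏ l ∈ T, l : ℕ) : ℝ)) + 1) :=
          mul_le_mul_of_nonneg_left h2 (prod_nonneg fun l _ => by positivity)
      _ = (∏ l ∈ T, ((2 : ℝ) ^ (e + 1) / (l : ℝ))) * (1 / ((∏ l ∈ T, l : ℕ) : ℝ)) * (A / P)
            + ∏ l ∈ T, ((2 : ℝ) ^ (e + 1) / (l : ℝ)) := by ring
      _ = _ := by rw [prod_div_mul]
  refine (sum_le_sum h1).trans ?_
  rw [sum_add_distrib, ← sum_mul]
  refine add_le_add (mul_le_mul_of_nonneg_right (sum_prod_sq _ _ (by positivity)) (by positivity)) ?_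
  rw [← Finset.prod_one_add]
  calc ∏ l ∈ Nat.primesLE (2 * A), (1 + (2 : ℝ) ^ (e + 1) / (l : ℝ))
      ≤ ∏ l ∈ Nat.primesLE (2 * A), Real.exp (2 ^ (e + 1) * (1 / (l : ℝ))) := by
        refine prod_le_prod (fun l _ => by positivity) fun l _ => ?_
        have := Real.add_one_le_exp ((2 : ℝ) ^ (e + 1) * (1 / (l : ℝ)))
        have e : (2 : ℝ) ^ (e + 1) / (l : ℝ) = 2 ^ (e + 1) * (1 / (l : ℝ)) := by ring
        rw [e]; linarith
    _ = Real.exp (2 ^ (e + 1) * ∑ l ∈ Nat.primesLE (2 * A), 1 / (l : ℝ)) := by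
        rw [mul_sum, Real.exp_sum]
    _ ≤ _ := by
        rw [Real.exp_le_exp]
        exact mul_le_mul_of_nonneg_left
          (Pool.Agent.Lib.PrimeSums.sum_inv_le (2 * A) (by omega)) (by positivity)

/-- first needed bound, for large `A`. -/
lemma fam_moment (e P : ℕ) (hP : 2 ≤ P) : ∃ A₁ : ℕ, ∀ A ≥ A₁,
    (A : ℝ) / P ≤ 2 * #(fam A P) ∧
    ∑ x ∈ fam A P, h x ^ e ≤ 2 * (Real.exp (2 ^ (e + 1)) + 1) * #(fam A P) := by
  have hP0 : (0 : ℝ) < P := by exact_mod_cast (by omega : 0 < P)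
  set K : ℕ := 2 ^ (e + 1) with hK
  have hlim : Filter.Tendsto (fun A : ℕ => Real.log ((2 * A : ℕ) : ℝ) ^ K / ((2 * A : ℕ) : ℝ))
      Filter.atTop (nhds 0) := by
    have h1 : Filter.Tendsto (fun x : ℝ => Real.log x ^ K / x) Filter.atTop (nhds 0) := by
      have := (Real.isLittleO_pow_log_id_atTop (n := K)).tendsto_div_nhds_zero
      simpa using this
    have h2 : Filter.Tendsto (fun A : ℕ => ((2 * A : ℕ) : ℝ)) Filter.atTop Filter.atTop :=
      tendsto_natCast_atTop_atTop.comp (Filter.tendsto_atTop_mono (fun A => by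
        show A ≤ 2 * A; omega) Filter.tendsto_id)
    exact h1.comp h2
  have hε : (0 : ℝ) < 1 / (2 * P * Real.exp (2 ^ (e + 1) * 4)) := by positivity
  have hev := (hlim.eventually (gt_mem_nhds hε)).and (Filter.eventually_ge_atTop (2 * P))
  obtain ⟨A₁, hA₁⟩ := Filter.eventually_atTop.mp hev
  refine ⟨A₁, fun A hA => ?_⟩
  obtain ⟨h1, h2⟩ := hA₁ A hA
  have hA1 : 1 ≤ A := by omega
  have hA0 : (0 : ℝ) < A := by exact_mod_cast (by omega : 0 < A)
  have hA2 : (0 : ℝ) < ((2 * A : ℕ) : ℝ) := by push_cast; linarith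
  have h3 : (2 : ℝ) ≤ A / P := by
    rw [le_div_iff₀ hP0]; exact_mod_cast h2
  have h4 := card_fam_lower A P hP
  have h5 : (A : ℝ) / P ≤ 2 * #(fam A P) := by linarith
  refine ⟨h5, ?_⟩
  refine (sum_h_fam A P e hA1 (by omega)).trans ?_
  have hlog : 0 < Real.log ((2 * A : ℕ) : ℝ) := Real.log_pos (by
    exact_mod_cast (by omega : 1 < 2 * A))
  have h6 : Real.exp (2 ^ (e + 1) * (Real.log (Real.log ((2 * A : ℕ) : ℝ)) + 4))
      ≤ A / P := by
    have e1 : Real.exp (2 ^ (e + 1) * (Real.log (Real.log ((2 * A : ℕ) : ℝ)) + 4))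
        = Real.log ((2 * A : ℕ) : ℝ) ^ K * Real.exp (2 ^ (e + 1) * 4) := by
      rw [mul_add, Real.exp_add]
      congr 1
      have : (2 : ℝ) ^ (e + 1) = (K : ℝ) := by rw [hK]; push_cast; rfl
      rw [this, Real.exp_nat_mul, Real.exp_log hlog]
    rw [e1]
    rw [div_lt_iff₀ hA2] at h1
    have hE : (0 : ℝ) < Real.exp (2 ^ (e + 1) * 4) := Real.exp_pos _
    calc Real.log ((2 * A : ℕ) : ℝ) ^ K * Real.exp (2 ^ (e + 1) * 4)
        ≤ (1 / (2 * P * Real.exp (2 ^ (e + 1) * 4)) * ((2 * A : ℕ) : ℝ))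
          * Real.exp (2 ^ (e + 1) * 4) := mul_le_mul_of_nonneg_right h1.le hE.le
      _ = A / P := by push_cast; field_simp
  have h7 : (0 : ℝ) < Real.exp (2 ^ (e + 1)) := Real.exp_pos _
  calc Real.exp (2 ^ (e + 1)) * (A / P)
      + Real.exp (2 ^ (e + 1) * (Real.log (Real.log ((2 * A : ℕ) : ℝ)) + 4))
      ≤ Real.exp (2 ^ (e + 1)) * (A / P) + A / P := by linarith
    _ = (Real.exp (2 ^ (e + 1)) + 1) * (A / P) := by ring
    _ ≤ (Real.exp (2 ^ (e + 1)) + 1) * (2 * #(fam A P)) :=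
        mul_le_mul_of_nonneg_left h5 (by linarith)
    _ = _ := by ring

/-- second needed bound. -/
lemma pair_moment (A P e x : ℕ) (hP : 0 < P) (hx : x ∈ fam A P) :
    ∑ y ∈ fam A P with y ≠ x, h (((x : ℤ) - y).natAbs / P) ^ e
      ≤ 2 * (Real.exp (2 ^ (e + 1)) * (A / P)) := by
  classical
  rw [mem_fam] at hx
  obtain ⟨⟨hx1, hx2⟩, hx3⟩ := hx
  have key : ∀ S : Finset ℕ, (∀ y ∈ S, y ∈ fam A P ∧ y ≠ x) →
      (∀ y ∈ S, ∀ z ∈ S, ((x : ℤ) - y).natAbs = ((x : ℤ) - z).natAbs → y = z) →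
      ∑ y ∈ S, h (((x : ℤ) - y).natAbs / P) ^ e ≤ Real.exp (2 ^ (e + 1)) * (A / P) := by
    intro S hS hinj
    have hdvd : ∀ y ∈ S, P ∣ ((x : ℤ) - y).natAbs := by
      intro y hy
      obtain ⟨h1, h2⟩ := hS y hy
      rw [mem_fam] at h1
      have h3 : y ≡ x [MOD P] := by unfold Nat.ModEq; rw [h1.2, hx3]
      have h4 := (Nat.modEq_iff_dvd.mp h3)
      exact Int.natCast_dvd.mp h4
    have hinj2 : Set.InjOn (fun y : ℕ => ((x : ℤ) - y).natAbs / P) (S : Set ℕ) := by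
      intro y hy z hz hyz
      refine hinj y hy z hz ?_
      have h1 := Nat.div_mul_cancel (hdvd y hy)
      have h2 := Nat.div_mul_cancel (hdvd z hz)
      simp only at hyz
      rw [← h1, ← h2, hyz]
    rw [← sum_image (g := fun y : ℕ => ((x : ℤ) - y).natAbs / P) (f := fun t => h t ^ e) hinj2]
    calc _ ≤ ∑ t ∈ Icc 1 (A / P), h t ^ e := by
          refine sum_le_sum_of_subset_of_nonneg ?_ (fun t _ _ => pow_nonneg (h_pos t).le _)
          intro t ht
          rw [mem_image] at ht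
          obtain ⟨y, hy, rfl⟩ := ht
          obtain ⟨h1, h2⟩ := hS y hy
          rw [mem_fam] at h1
          rw [mem_Icc]
          constructor
          · rw [Nat.one_le_div_iff hP]
            exact Nat.le_of_dvd (by omega) (hdvd y hy)
          · exact Nat.div_le_div_right (by omega)
      _ ≤ Real.exp (2 ^ (e + 1)) * ((A / P : ℕ) : ℝ) := sum_h_Icc _ _
      _ ≤ _ := mul_le_mul_of_nonneg_left Nat.cast_div_le (Real.exp_pos _).le
  have hsplit : {y ∈ fam A P | y ≠ x} = {y ∈ fam A P | y < x} ∪ {y ∈ fam A P | x < y} := by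
    rw [← filter_or]
    refine filter_congr fun y _ => ?_
    omega
  rw [hsplit, sum_union (by
    rw [disjoint_filter]; intro y _ h1 h2; omega)]
  have h1 := key {y ∈ fam A P | y < x} (fun y hy => by
      rw [mem_filter] at hy; exact ⟨hy.1, by omega⟩) (fun y hy z hz hyz => by
      rw [mem_filter] at hy hz; omega)
  have h2 := key {y ∈ fam A P | x < y} (fun y hy => by
      rw [mem_filter] at hy; exact ⟨hy.1, by omega⟩) (fun y hy z hz hyz => by
      rw [mem_filter] at hy hz; omega)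
  linarith

lemma prod_le_one_add_sum {ι : Type*} (s : Finset ι) (u : ι → ℝ) (hu : ∀ i ∈ s, 1 ≤ u i) :
    ∏ i ∈ s, u i ≤ 1 + ∑ i ∈ s, u i ^ #s := by
  rcases s.eq_empty_or_nonempty with rfl | hs
  · simp
  obtain ⟨i₀, hi₀, hmax⟩ := s.exists_max_image u hs
  have h1 : ∏ i ∈ s, u i ≤ u i₀ ^ #s := by
    calc ∏ i ∈ s, u i ≤ ∏ _i ∈ s, u i₀ :=
          prod_le_prod (fun i hi => zero_le_one.trans (hu i hi)) (fun i hi => hmax i hi)
      _ = u i₀ ^ #s := by rw [prod_const]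
  have h2 : u i₀ ^ #s ≤ ∑ i ∈ s, u i ^ #s :=
    single_le_sum (f := fun i => u i ^ #s)
      (fun i hi => pow_nonneg (zero_le_one.trans (hu i hi)) _) hi₀
  linarith

lemma h_prod_le {ι : Type*} (s : Finset ι) (f : ι → ℕ) (hf : ∀ i ∈ s, f i ≠ 0) :
    h (∏ i ∈ s, f i) ≤ ∏ i ∈ s, h (f i) := by
  classical
  induction s using Finset.induction_on with
  | empty => simp [h]
  | insert i s hi ih =>
    rw [prod_insert hi, prod_insert hi]
    refine (h_mul_le (hf i (mem_insert_self _ _)) ?_).trans ?_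
    · rw [prod_ne_zero_iff]
      exact fun j hj => hf j (mem_insert_of_mem hj)
    · exact mul_le_mul_of_nonneg_left (ih fun j hj => hf j (mem_insert_of_mem hj)) (h_pos _).le

/-- sum over tuples of a function of two coordinates. -/
lemma sum_pair {k : ℕ} (s : Finset ℕ) (g : ℕ → ℕ → ℝ) (B : ℝ) (p q : Fin k) (hpq : p ≠ q)
    (hg : ∀ y ∈ s, ∑ z ∈ s, g z y ≤ B) (hs : 0 < #s) :
    ∑ a ∈ Fintype.piFinset fun _ : Fin k => s, g (a p) (a q) ≤ B / #s * (#s : ℝ) ^ k := by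
  classical
  have h1 : ∑ w ∈ (Fintype.piFinset fun _ : Fin k => s) ×ˢ s, g (w.1 p) (w.1 q)
      = ∑ w ∈ (Fintype.piFinset fun _ : Fin k => s) ×ˢ s, g w.2 (w.1 q) := by
    refine sum_nbij' (fun w => (Function.update w.1 p w.2, w.1 p))
      (fun w => (Function.update w.1 p w.2, w.1 p)) ?_ ?_ ?_ ?_ ?_
    · rintro ⟨a, z⟩ hw
      rw [mem_product, Fintype.mem_piFinset] at hw
      rw [mem_product, Fintype.mem_piFinset]
      refine ⟨fun i => ?_, hw.1 p⟩
      by_cases hi : i = p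
      · subst hi; simpa using hw.2
      · simpa [hi] using hw.1 i
    · rintro ⟨a, z⟩ hw
      rw [mem_product, Fintype.mem_piFinset] at hw
      rw [mem_product, Fintype.mem_piFinset]
      refine ⟨fun i => ?_, hw.1 p⟩
      by_cases hi : i = p
      · subst hi; simpa using hw.2
      · simpa [hi] using hw.1 i
    · rintro ⟨a, z⟩ _; simp
    · rintro ⟨a, z⟩ _; simp
    · rintro ⟨a, z⟩ _
      simp [Function.update_of_ne hpq.symm]
  rw [sum_product, sum_product] at h1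
  simp only [sum_const, nsmul_eq_mul] at h1
  rw [← mul_sum] at h1
  have h2 : ∑ a ∈ Fintype.piFinset fun _ : Fin k => s, ∑ z ∈ s, g z (a q)
      ≤ (#s : ℝ) ^ k * B := by
    refine (sum_le_card_nsmul _ _ B fun a ha => hg _ (Fintype.mem_piFinset.mp ha q)).trans ?_
    rw [Fintype.card_piFinset_const, nsmul_eq_mul]
    push_cast
    exact le_rfl
  have hs0 : (0 : ℝ) < #s := by exact_mod_cast hs
  have h3 : (#s : ℝ) * ∑ a ∈ Fintype.piFinset fun _ : Fin k => s, g (a p) (a q) ≤ (#s : ℝ) ^ k * B := by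
    rw [h1]; exact h2
  rw [div_mul_eq_mul_div, le_div_iff₀ hs0]
  linarith

lemma sum_single_coord {k : ℕ} (s : Finset ℕ) (f : ℕ → ℝ) (B : ℝ) (p : Fin k)
    (hf : ∑ x ∈ s, f x ≤ B * #s) :
    ∑ a ∈ Fintype.piFinset fun _ : Fin k => s, f (a p) ≤ B * (#s : ℝ) ^ k := by
  rw [Fintype.sum_piFinset_apply, nsmul_eq_mul, Fintype.card_fin]
  have hk : k = (k - 1) + 1 := by have := p.pos; omega
  push_cast
  calc (#s : ℝ) ^ (k - 1) * ∑ x ∈ s, f x ≤ (#s : ℝ) ^ (k - 1) * (B * #s) :=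
        mul_le_mul_of_nonneg_left hf (by positivity)
    _ = B * (#s : ℝ) ^ ((k - 1) + 1) := by rw [pow_succ]; ring
    _ = _ := by rw [← hk]

end MO64

open MO64 in
open Pool.Agent.helper35.LinPrimes in
open Classical in
theorem moment (k : ℕ) (c : ℤ) (hc : c ≠ 0) : ∃ (C : ℝ) (E : ℕ), 0 < C ∧ ∀ P ≥ 2, ∃ A₁ : ℕ,
    ∀ A ≥ A₁, ∑ a ∈ (Fintype.piFinset fun _ : Fin k => fam A P) with Function.Injective a,
      (h (D a c) ^ k) ^ 2 ≤ C * h P ^ E * (#(fam A P) : ℝ) ^ k := by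
  set off : Finset (Fin k × Fin k) := (univ : Finset (Fin k)).offDiag with hoff
  set e₁ : ℕ := #(univ : Finset (Fin k)) * (4 * k) with he₁
  set e₂ : ℕ := off.card * (4 * k) with he₂
  set X : ℝ := h c.natAbs * h k.factorial with hX
  have hX1 : 1 ≤ X := one_le_mul_of_one_le_of_one_le (one_le_h _) (one_le_h _)
  set B₁ : ℝ := 2 * (Real.exp (2 ^ (e₁ + 1)) + 1) with hB₁
  set B₂ : ℝ := 4 * Real.exp (2 ^ (e₂ + 1)) with hB₂
  have hB₁0 : 0 < B₁ := by positivity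
  have hB₂0 : 0 < B₂ := by positivity
  refine ⟨X ^ (2 * k) * (2 + k * B₁ + off.card * B₂), off.card * (2 * k), by positivity, ?_⟩
  intro P hP
  obtain ⟨A₁, hA₁⟩ := fam_moment e₁ P hP
  refine ⟨A₁ + 2 * P, fun A hA => ?_⟩
  obtain ⟨hfam, hmom⟩ := hA₁ A (by omega)
  have hP0 : (0 : ℝ) < P := by exact_mod_cast (by omega : 0 < P)
  have hA0 : (0 : ℝ) < A := by exact_mod_cast (by omega : 0 < A)
  set F := fam A P with hF
  have hcard : 0 < #F := by
    have : (0 : ℝ) < A / P := by positivity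
    have h1 : (0 : ℝ) < #F := by linarith
    exact_mod_cast h1
  have hcard0 : (0 : ℝ) < #F := by exact_mod_cast hcard
  set g : ℕ → ℕ → ℝ := fun x y => if y ≠ x then h (((x : ℤ) - y).natAbs / P) ^ e₂ else 0 with hg
  have hg0 : ∀ x y, 0 ≤ g x y := by
    intro x y
    simp only [hg]
    split_ifs
    · exact pow_nonneg (h_pos _).le _
    · exact le_rfl
  have hgsym : ∀ x y, g x y = g y x := by
    intro x y
    simp only [hg]
    have e : ((x : ℤ) - y).natAbs = ((y : ℤ) - x).natAbs := by omega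
    rw [e]
    congr 1
    exact propext ne_comm
  -- pointwise bound
  have hpt : ∀ a ∈ (Fintype.piFinset fun _ : Fin k => F).filter (fun a => Function.Injective a),
      (h (D a c) ^ k) ^ 2 ≤ X ^ (2 * k) * h P ^ (off.card * (2 * k)) *
        (2 + ∑ i, h (a i) ^ e₁ + ∑ x ∈ off, g (a x.1) (a x.2)) := by
    intro a ha
    rw [mem_filter, Fintype.mem_piFinset] at ha
    obtain ⟨ha, hinj⟩ := ha
    have ha1 : ∀ i, A < a i := fun i => (mem_fam.mp (ha i)).1.1
    have ha0 : ∀ i, a i ≠ 0 := fun i => by have := ha1 i; omega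
    have hne : ∀ x ∈ off, a x.2 ≠ a x.1 := by
      intro x hx heq
      rw [hoff, mem_offDiag] at hx
      exact hx.2.2 (hinj heq).symm
    have hd0 : ∀ x ∈ off, ((a x.1 : ℤ) - a x.2).natAbs ≠ 0 := by
      intro x hx
      have := hne x hx
      omega
    have hPd : ∀ x ∈ off, P ∣ ((a x.1 : ℤ) - a x.2).natAbs := by
      intro x _
      have h3 : a x.2 ≡ a x.1 [MOD P] := by
        unfold Nat.ModEq; rw [(mem_fam.mp (ha x.2)).2, (mem_fam.mp (ha x.1)).2]
      exact Int.natCast_dvd.mp (Nat.modEq_iff_dvd.mp h3)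
    set U : ℝ := ∏ i, h (a i) with hU
    set W : ℝ := ∏ x ∈ off, h (((a x.1 : ℤ) - a x.2).natAbs / P) with hW
    have hU1 : 1 ≤ U := Finset.one_le_prod fun i _ => one_le_h _
    have hW1 : 1 ≤ W := Finset.one_le_prod fun i _ => one_le_h _
    have h1 : h (D a c) ≤ X * h P ^ off.card * (U * W) := by
      unfold D
      rw [← hoff]
      have e1 : (∏ i, a i) ≠ 0 := prod_ne_zero_iff.mpr fun i _ => ha0 i
      have e2 : (∏ x ∈ off, ((a x.1 : ℤ) - a x.2).natAbs) ≠ 0 := prod_ne_zero_iff.mpr hd0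
      have e3 : c.natAbs ≠ 0 := Int.natAbs_ne_zero.mpr hc
      have e4 : k.factorial ≠ 0 := Nat.factorial_ne_zero k
      have f1 : h (∏ x ∈ off, ((a x.1 : ℤ) - a x.2).natAbs) ≤ h P ^ off.card * W := by
        refine (h_prod_le off _ hd0).trans ?_
        rw [hW, ← prod_const, ← prod_mul_distrib]
        refine prod_le_prod (fun x _ => (h_pos _).le) fun x hx => ?_
        obtain ⟨t, ht⟩ := hPd x hx
        have ht0 : t ≠ 0 := by
          rintro rfl
          exact hd0 x hx (by rw [ht, mul_zero])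
        rw [ht, Nat.mul_div_cancel_left _ (by omega)]
        exact h_mul_le (by omega) ht0
      have f2 : h (∏ i, a i) ≤ U := h_prod_le univ _ fun i _ => ha0 i
      calc h (c.natAbs * k.factorial * (∏ i, a i) * ∏ x ∈ off, ((a x.1 : ℤ) - a x.2).natAbs)
          ≤ h (c.natAbs * k.factorial * (∏ i, a i)) * h (∏ x ∈ off, ((a x.1 : ℤ) - a x.2).natAbs) :=
            h_mul_le (mul_ne_zero (mul_ne_zero e3 e4) e1) e2
        _ ≤ (X * U) * (h P ^ off.card * W) := by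
            refine mul_le_mul ?_ f1 (h_pos _).le (by positivity)
            refine (h_mul_le (mul_ne_zero e3 e4) e1).trans ?_
            exact mul_le_mul (h_mul_le e3 e4) f2 (h_pos _).le (by positivity)
        _ = _ := by ring
    have h2 : (U * W) ^ (2 * k) ≤ 2 + ∑ i, h (a i) ^ e₁ + ∑ x ∈ off, g (a x.1) (a x.2) := by
      have h3 : (U * W) ^ (2 * k) ≤ U ^ (4 * k) + W ^ (4 * k) := by
        have e1 : (U * W) ^ (2 * k) = U ^ (2 * k) * W ^ (2 * k) := mul_pow _ _ _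
        have e2 : U ^ (4 * k) = (U ^ (2 * k)) ^ 2 := by rw [← pow_mul]; congr 1; ring
        have e3 : W ^ (4 * k) = (W ^ (2 * k)) ^ 2 := by rw [← pow_mul]; congr 1; ring
        rw [e1, e2, e3]
        nlinarith [sq_nonneg (U ^ (2 * k) - W ^ (2 * k)), sq_nonneg (U ^ (2 * k)),
          sq_nonneg (W ^ (2 * k))]
      have h4 : U ^ (4 * k) ≤ 1 + ∑ i, h (a i) ^ e₁ := by
        rw [hU, ← prod_pow]
        refine (prod_le_one_add_sum univ _ fun i _ => one_le_pow₀ (one_le_h _)).trans (le_of_eq ?_)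
        congr 1
        refine sum_congr rfl fun i _ => ?_
        rw [← pow_mul, he₁, mul_comm (4 * k)]
      have h5 : W ^ (4 * k) ≤ 1 + ∑ x ∈ off, g (a x.1) (a x.2) := by
        rw [hW, ← prod_pow]
        refine (prod_le_one_add_sum off _ fun i _ => one_le_pow₀ (one_le_h _)).trans (le_of_eq ?_)
        congr 1
        refine sum_congr rfl fun x hx => ?_
        simp only [hg]
        rw [if_pos (hne x hx), ← pow_mul, he₂, mul_comm (4 * k)]
      linarith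
    calc (h (D a c) ^ k) ^ 2 = h (D a c) ^ (2 * k) := by rw [← pow_mul]; congr 1; ring
      _ ≤ (X * h P ^ off.card * (U * W)) ^ (2 * k) := pow_le_pow_left₀ (h_pos _).le h1 _
      _ = X ^ (2 * k) * h P ^ (off.card * (2 * k)) * (U * W) ^ (2 * k) := by
          rw [mul_pow, mul_pow, ← pow_mul]
      _ ≤ _ := mul_le_mul_of_nonneg_left h2 (mul_nonneg (by positivity)
          (pow_nonneg (h_pos _).le _))
  refine (sum_le_sum hpt).trans ?_
  rw [← mul_sum]
  have hPE : 0 ≤ h P ^ (off.card * (2 * k)) := pow_nonneg (h_pos _).le _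
  have hmain : ∑ a ∈ (Fintype.piFinset fun _ : Fin k => F).filter (fun a => Function.Injective a),
      (2 + ∑ i, h (a i) ^ e₁ + ∑ x ∈ off, g (a x.1) (a x.2))
      ≤ (2 + k * B₁ + off.card * B₂) * (#F : ℝ) ^ k := by
    calc _ ≤ ∑ a ∈ Fintype.piFinset fun _ : Fin k => F,
          (2 + ∑ i, h (a i) ^ e₁ + ∑ x ∈ off, g (a x.1) (a x.2)) := by
          refine sum_le_sum_of_subset_of_nonneg (filter_subset _ _) fun a _ _ => ?_
          have h1 : 0 ≤ ∑ i, h (a i) ^ e₁ := sum_nonneg fun i _ => pow_nonneg (h_pos _).le _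
          have h2 : 0 ≤ ∑ x ∈ off, g (a x.1) (a x.2) := sum_nonneg fun x _ => hg0 _ _
          linarith
      _ = 2 * (#F : ℝ) ^ k + ∑ i, ∑ a ∈ Fintype.piFinset fun _ : Fin k => F, h (a i) ^ e₁
          + ∑ x ∈ off, ∑ a ∈ Fintype.piFinset fun _ : Fin k => F, g (a x.1) (a x.2) := by
          rw [sum_add_distrib, sum_add_distrib, sum_const, Fintype.card_piFinset_const,
            nsmul_eq_mul, sum_comm (s := Fintype.piFinset fun _ : Fin k => F) (t := off)]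
          rw [sum_comm (s := Fintype.piFinset fun _ : Fin k => F) (t := univ)]
          push_cast
          ring
      _ ≤ 2 * (#F : ℝ) ^ k + ∑ _i : Fin k, B₁ * (#F : ℝ) ^ k + ∑ _x ∈ off, B₂ * (#F : ℝ) ^ k := by
          refine add_le_add (add_le_add le_rfl (sum_le_sum fun i _ => ?_)) (sum_le_sum fun x hx => ?_)
          · exact sum_single_coord F (fun x => h x ^ e₁) B₁ i hmom
          · have hx' : x.1 ≠ x.2 := by
              rw [hoff, mem_offDiag] at hx; exact hx.2.2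
            have h3 := sum_pair F g (B₂ * #F) x.1 x.2 hx' (fun y hy => ?_) hcard
            · rwa [mul_div_assoc, div_self hcard0.ne', mul_one] at h3
            · calc ∑ z ∈ F, g z y = ∑ z ∈ F, g y z := sum_congr rfl fun z _ => hgsym z y
                _ = ∑ z ∈ F with z ≠ y, h (((y : ℤ) - z).natAbs / P) ^ e₂ := by
                    rw [sum_filter]
                _ ≤ 2 * (Real.exp (2 ^ (e₂ + 1)) * (A / P)) :=
                    pair_moment A P e₂ y (by omega) hy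
                _ ≤ 2 * (Real.exp (2 ^ (e₂ + 1)) * (2 * #F)) := by
                    have := Real.exp_pos ((2 : ℝ) ^ (e₂ + 1))
                    gcongr
                _ = B₂ * #F := by rw [hB₂]; ring
      _ = _ := by
          rw [sum_const, sum_const, card_univ, Fintype.card_fin, nsmul_eq_mul, nsmul_eq_mul]
          ring
  calc X ^ (2 * k) * h P ^ (off.card * (2 * k)) * _
      ≤ X ^ (2 * k) * h P ^ (off.card * (2 * k)) * ((2 + k * B₁ + off.card * B₂) * (#F : ℝ) ^ k) :=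
        mul_le_mul_of_nonneg_left hmain (mul_nonneg (by positivity) hPE)
    _ = _ := by ring

end Pool.Agent.helper96.Slope
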